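import Pool.Agent.Work.MP_d4a230_co.C.Psi

/-!
One step of the construction of a small, locally bipartite graph of large chromatic number.
-/

namespace Pool.Agent.Work.MP_d4a230_co.U

open Finset Filter Topology Pool.Agent.Work.MP_07f1b5_pr
open scoped BigOperators

set_option linter.unusedSectionVars false

variable {V : Type} [Fintype V] [DecidableEq V]

/-- Small sets have a colouring with two colours. -/
def LoB (h : ℕ) (J : Finset (Sym2 V)) : Prop := ∀ U : Finset V, U.card ≤ h →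
  ∃ κ : V → Prop, ∀ x ∈ U, ∀ y ∈ U, (gr J).Adj x y → ¬ (κ x ↔ κ y)

/-- Independent sets. -/
def LoI (J : Finset (Sym2 V)) (I : Finset V) : Prop := ∀ x ∈ I, ∀ y ∈ I, ¬ (gr J).Adj x y

/-- Joined by a short walk. -/
def LoN (J : Finset (Sym2 V)) (k : ℕ) (a b : V) : Prop := ∃ w : (gr J).Walk b a, w.length ≤ k

/-- The potential. -/
noncomputable def loP (lam : ℝ) (b : ℕ) (A : Finset V) (J : Finset (Sym2 V)) : ℝ :=
  ∑ I ∈ A.powerset, ind (LoI J I) * lam ^ (I.card - b)

/-- Number of pairs at a vertex. -/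
def loD (J : Finset (Sym2 V)) (x : V) : ℕ := (J.filter fun e => x ∈ e).card

/-- The star of a tuple. -/
def loQ {D : ℕ} (v : V) (τ : Fin D → V) : Finset (Sym2 V) := univ.image fun i => s(v, τ i)

/-- States of the construction. -/
structure LoS (h D b : ℕ) (lam : ℝ) (B : Finset V) (t : ℕ) (S : Finset V) (J : Finset (Sym2 V)) :
    Prop where
  sub : B ⊆ S
  card : S.card = B.card + t
  ins : ∀ e ∈ J, ∀ x ∈ e, x ∈ S
  cJ : J.card ≤ D * t
  deg : ∀ x, loD J x ≤ 16 * D ^ 2
  bip : LoB h J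
  pot : loP lam b (S \ B) J ≤ 3 ^ t

variable {h D b t : ℕ} {lam : ℝ} {B S : Finset V} {J : Finset (Sym2 V)}

lemma lo_zero : LoS h D b lam B 0 B ∅ :=
  ⟨Subset.rfl, rfl, by simp, by simp, by simp [loD],
    fun _ _ => ⟨fun _ => True, fun x _ y _ k => by simp [gr_adj] at k⟩, by
    simpa [loP] using ind_le_one _⟩

open Classical in
lemma lo_ball {Δ : ℕ} (hΔ : ∀ x, loD J x ≤ Δ) (a : V) (k : ℕ) :
    (univ.filter fun x => LoN J k a x).card ≤ (Δ + 1) ^ k := by
  induction k with
  | zero =>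
    refine card_le_one.2 fun x hx y hy => ?_
    obtain ⟨w, hw⟩ := (mem_filter.1 hx).2
    obtain ⟨w2, hw2⟩ := (mem_filter.1 hy).2
    exact (w.eq_of_length_eq_zero (Nat.le_zero.1 hw)).trans
      (w2.eq_of_length_eq_zero (Nat.le_zero.1 hw2)).symm
  | succ k ih =>
    refine (card_le_card (t := (univ.filter fun x => LoN J k a x).biUnion fun c =>
      insert c (univ.filter fun x => (gr J).Adj x c)) fun x hx => ?_).trans
      ((card_biUnion_le_card_mul _ _ (Δ + 1) fun c _ => (card_insert_le _ _).trans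
        (Nat.succ_le_succ (le_trans ?_ (hΔ c)))).trans (Nat.mul_le_mul_right _ ih))
    · obtain ⟨w, hw⟩ := (mem_filter.1 hx).2
      cases w with
      | nil => exact mem_biUnion.2 ⟨_, mem_filter.2 ⟨mem_univ _, .nil, Nat.zero_le _⟩,
          mem_insert_self _ _⟩
      | cons k w => exact mem_biUnion.2 ⟨_, mem_filter.2 ⟨mem_univ _, w, Nat.le_of_succ_le_succ hw⟩,
          mem_insert_of_mem (mem_filter.2 ⟨mem_univ _, k⟩)⟩
    · exact card_le_card_of_injOn (fun x => s(x, c)) (fun x hx => mem_coe.2 (mem_filter.2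
        ⟨(gr_adj.1 (mem_filter.1 (mem_coe.1 hx)).2).1, Sym2.mem_mk_right _ _⟩))
        fun x _ y _ e => Sym2.congr_left.1 e

lemma lo_adj {v x y : V} {τ : Fin D → V} (k : (gr (J ∪ loQ v τ)).Adj x y) :
    (gr J).Adj x y ∨ ∃ i, (x = v ∧ y = τ i) ∨ (x = τ i ∧ y = v) := by
  obtain ⟨k1, k2⟩ := gr_adj.1 k
  refine (mem_union.1 k1).imp (fun e => gr_adj.2 ⟨e, k2⟩) fun e => ?_
  obtain ⟨i, -, e⟩ := mem_image.1 e
  exact ⟨i, Sym2.eq_iff.1 e.symm⟩

lemma lo_bip (hB : LoB h J) {v : V} (hv : ∀ x y, (gr J).Adj x y → x ≠ v) {τ : Fin D → V}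
    (h1 : ∀ i, τ i ≠ v) (h2 : ∀ i j, LoN J h (τ i) (τ j) → i = j) : LoB h (J ∪ loQ v τ) := by
  intro U hU
  obtain ⟨κ, hκ⟩ := hB U hU
  let G : SimpleGraph V := ⟨fun x y => (gr J).Adj x y ∧ x ∈ U ∧ y ∈ U,
    ⟨fun _ _ k => ⟨k.1.symm, k.2.symm⟩⟩, ⟨fun _ k => k.1.ne rfl⟩⟩
  have g1 : ∀ {x y} (w : G.Walk x y), y ∈ U → ∀ z ∈ w.support, z ∈ U := fun w => by
    induction w with
    | nil => simp
    | cons k w ih =>
      intro e z hz
      rcases List.mem_cons.1 hz with rfl | hz
      exacts [k.2.1, ih e z hz]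
  have g2 : ∀ i j, τ j ∈ U → G.Reachable (τ i) (τ j) → j = i := fun i j e ⟨w⟩ => by
    refine h2 j i ⟨w.bypass.mapLe (show G ≤ gr J from fun _ _ k => k.1), ?_⟩
    have c := card_le_card (s := w.bypass.support.toFinset) fun z hz =>
      g1 _ e z (List.mem_toFinset.1 hz)
    rw [List.toFinset_card_of_nodup w.bypass_isPath.support_nodup,
      SimpleGraph.Walk.length_support] at c
    rw [SimpleGraph.Walk.length_map]
    omega
  let f : V → Prop := fun x => ∃ i, G.Reachable (τ i) x ∧ κ (τ i)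
  have g3 : ∀ i, τ i ∈ U → (f (τ i) ↔ κ (τ i)) := fun i e =>
    ⟨fun ⟨j, k1, k2⟩ => g2 j i e k1 ▸ k2, fun k => ⟨i, .refl _, k⟩⟩
  refine ⟨fun x => x = v ∨ ¬ (κ x ↔ f x), fun x hx y hy k => ?_⟩
  beta_reduce
  rcases lo_adj k with k | ⟨i, ⟨rfl, rfl⟩ | ⟨rfl, rfl⟩⟩
  · have a1 := hv x y k
    have a2 := hv y x k.symm
    have a3 := hκ x hx y hy k
    have a4 : G.Reachable x y := SimpleGraph.Adj.reachable ⟨k, hx, hy⟩
    have a5 : f x ↔ f y := exists_congr fun i => and_congr_left'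
      ⟨fun e => e.trans a4, fun e => e.trans a4.symm⟩
    simp only [a1, a2, a5, false_or]
    generalize f y = P at *
    clear * - a3
    tauto
  · simp [h1 i, g3 i hy]
  · simp [h1 i, g3 i hx]

lemma lo_step (L : LoS h D b lam B t S J) (l0 : 0 ≤ lam) {τ : Fin D → V} (h0 : ∀ i, τ i ∈ S)
    (h1 : ∀ i, loD J (τ i) < 16 * D ^ 2) (h2 : ∀ i j, LoN J h (τ i) (τ j) → i = j)
    (h3 : ∑ I ∈ (S \ B).powerset, ind (LoI J I) * lam ^ (I.card + 1 - b) * ind (∀ i, τ i ∉ I) ≤
      2 * 3 ^ t) {v : V} (hv : v ∉ S) :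
    LoS h D b lam B (t + 1) (insert v S) (J ∪ loQ v τ) := by
  have q1 : (loQ v τ).card ≤ D := card_image_le.trans (by simp)
  refine ⟨L.sub.trans (subset_insert _ _), by rw [card_insert_of_notMem hv, L.card, add_assoc],
    fun e he x hx => ?_, ((card_union_le _ _).trans (add_le_add L.cJ q1)).trans_eq (by ring),
    fun x => ?_, lo_bip L.bip (fun x y k => ne_of_mem_of_not_mem (L.ins _ (gr_adj.1 k).1 x
      (Sym2.mem_mk_left x y)) hv) (fun i e => hv (e ▸ h0 i)) h2, ?_⟩
  · rcases mem_union.1 he with k | k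
    · exact mem_insert_of_mem (L.ins e k x hx)
    · obtain ⟨i, -, rfl⟩ := mem_image.1 k
      rcases Sym2.mem_iff.1 hx with rfl | rfl
      exacts [mem_insert_self _ _, mem_insert_of_mem (h0 i)]
  · rw [loD, filter_union]
    refine (card_union_le _ _).trans ?_
    by_cases e : x = v
    · rw [filter_eq_empty_iff.2 fun g hg k => hv (e ▸ L.ins g hg x k), card_empty, zero_add]
      exact (card_filter_le _ _).trans (q1.trans (by nlinarith only [Nat.zero_le D]))
    · by_cases k : ∃ i, τ i = x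
      · obtain ⟨i, rfl⟩ := k
        refine le_trans (add_le_add le_rfl ((card_le_card (t := {s(v, τ i)})
          fun g hg => ?_).trans (card_singleton _).le)) (h1 i)
        obtain ⟨a1, a2⟩ := mem_filter.1 hg
        obtain ⟨j, -, rfl⟩ := mem_image.1 a1
        rw [(Sym2.mem_iff.1 a2).resolve_left e]
        exact mem_singleton_self _
      · rw [(filter_eq_empty_iff (s := loQ v τ)).2 fun g hg a => ?_, card_empty]
        · exact L.deg x
        · obtain ⟨j, -, rfl⟩ := mem_image.1 hg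
          exact k ⟨j, ((Sym2.mem_iff.1 a).resolve_left e).symm⟩
  · have m1 : ∀ I, LoI (J ∪ loQ v τ) I → LoI J I := fun I k x hx y hy a =>
      k x hx y hy (gr_adj.2 ⟨mem_union_left _ (gr_adj.1 a).1, a.ne⟩)
    have m2 : v ∉ S \ B := fun k => hv (mem_sdiff.1 k).1
    rw [loP, insert_sdiff_of_notMem _ fun k => hv (L.sub k), sum_powerset_insert m2, pow_succ]
    refine (add_le_add (le_trans (sum_le_sum fun I _ => mul_le_mul_of_nonneg_right
      (ind_mono (m1 I)) (pow_nonneg l0 _)) L.pot) (le_trans (sum_le_sum fun I hI => ?_) h3)).trans_eq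
      (by ring)
    rw [card_insert_of_notMem fun k => m2 (mem_powerset.1 hI k), mul_right_comm, ← ind_and]
    refine mul_le_mul_of_nonneg_right (ind_mono fun k => ⟨fun x hx y hy => m1 _ k x
      (mem_insert_of_mem hx) y (mem_insert_of_mem hy), fun i e => k v (mem_insert_self _ _) _
      (mem_insert_of_mem e) (gr_adj.2 ⟨mem_union_right _ (mem_image_of_mem _ (mem_univ i)),
        fun a => hv (a ▸ h0 i)⟩)⟩) (pow_nonneg l0 _)

lemma lo_sum (J : Finset (Sym2 V)) : ∑ x, loD J x ≤ J.card * 2 := by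
  simp only [loD, card_filter]
  rw [sum_comm]
  refine sum_le_card_nsmul _ _ 2 fun e _ => ?_
  rw [← card_filter]
  refine (card_le_card (t := e.toFinset) fun u hu =>
    Sym2.mem_toFinset.2 (mem_filter.1 hu).2).trans ?_
  rw [Sym2.card_toFinset]
  split_ifs <;> omega

lemma lo_sub (S : Finset V) (q : V → Prop) [DecidablePred q] :
    (univ.filter fun x : S => q x).card = (S.filter q).card := by
  rw [← card_map (Function.Embedding.subtype _)]
  congr 1
  ext x
  simp [and_comm]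

lemma lo_many (L : LoS h D b lam B t S J) {m : ℕ} (hB : B.card = m) (ht : t ≤ m) (m0 : 0 < m)
    (l0 : 0 ≤ lam) (D0 : 0 < D) {ρ : ℝ} (h1 : lam * ρ ^ D ≤ 1) (h2 : (1 - ρ) * (2 * m) ≤ b)
    (h4 : ρ ≤ 1) (h3 : 8 * (D ^ 2 * (16 * D ^ 2 + 1) ^ h) ≤ m) :
    1 / 4 ≤ 𝔼 τ : Fin D → S, ind (∀ v ∉ S,
      LoS h D b lam B (t + 1) (insert v S) (J ∪ loQ v fun i => τ i)) := by
  classical
  have c1 : m ≤ S.card := by rw [L.card]; omega
  have c2 : S.card ≤ 2 * m := by rw [L.card]; omega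
  have : Nonempty S := (card_pos.1 (m0.trans_le c1)).to_subtype
  have s0 : (0 : ℝ) < S.card := by exact_mod_cast m0.trans_le c1
  have d0 : (0 : ℝ) < D := by exact_mod_cast D0
  let Z : (Fin D → S) → ℝ := fun τ => ∑ I ∈ (S \ B).powerset,
    ind (LoI J I) * lam ^ (I.card + 1 - b) * ind (∀ i, (τ i : V) ∉ I)
  have pt : ∀ τ : Fin D → S, 1 ≤ ind (∀ v ∉ S,
      LoS h D b lam B (t + 1) (insert v S) (J ∪ loQ v fun i => τ i)) +
      (∑ i, ind (16 * D ^ 2 ≤ loD J (τ i)) +
      ∑ e ∈ (univ : Finset (Fin D)).offDiag, ind (LoN J h (τ e.1) (τ e.2)) +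
      ind (2 * 3 ^ t ≤ Z τ)) := fun τ => by
    refine le_trans (le_of_eq (ind_pos ?_).symm) ((ind_or_le _ _).trans (add_le_add le_rfl
      ((ind_or_le _ _).trans (add_le_add ((ind_or_le _ _).trans
        (add_le_add (ind_exists_le _ _) (ind_exists_le _ _))) le_rfl))))
    by_contra k
    simp only [not_or, not_exists, not_and, not_le] at k
    exact k.1 fun v hv => lo_step L l0 (fun i => (τ i).2) (fun i => k.2.1.1 i (mem_univ _))
      (fun i j a => by_contra fun e => k.2.1.2 (i, j) (by simpa using e) a) k.2.2.le hv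
  have e1 : ∀ i, 𝔼 τ : Fin D → S, ind (16 * D ^ 2 ≤ loD J (τ i)) ≤ 1 / (8 * D) := fun i => by
    have a1 := ex_mem_le {i} (univ.filter fun x : S => 16 * D ^ 2 ≤ loD J x)
    simp only [mem_singleton, forall_eq, mem_filter, mem_univ, true_and, card_singleton, pow_one,
      Fintype.card_coe] at a1
    refine a1.trans ?_
    rw [show (univ.filter fun x : S => 16 * D ^ 2 ≤ loD J x).card = _ from
      lo_sub S fun x => 16 * D ^ 2 ≤ loD J x, div_le_div_iff₀ s0 (by positivity), one_mul]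
    have a2 := (card_nsmul_le_sum (S.filter fun x => 16 * D ^ 2 ≤ loD J x) (loD J) _
      fun x hx => (mem_filter.1 hx).2).trans
      ((sum_le_sum_of_subset (subset_univ _)).trans (lo_sum J))
    have a3 := L.cJ.trans (Nat.mul_le_mul_left D (ht.trans c1))
    have a4 : (S.filter fun x => 16 * D ^ 2 ≤ loD J x).card * (8 * D) ≤ S.card :=
      Nat.le_of_mul_le_mul_left (c := 2 * D) (by rw [smul_eq_mul] at a2; nlinarith only [a2, a3])
        (by omega)
    exact_mod_cast a4
  have e2 : ∀ e ∈ (univ : Finset (Fin D)).offDiag,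
      𝔼 τ : Fin D → S, ind (LoN J h (τ e.1) (τ e.2)) ≤ 1 / (8 * D ^ 2) := fun e he => by
    rw [ex_update e.2]
    refine ex_le (by positivity) fun τ => ?_
    simp only [Function.update_self, Function.update_of_ne (mem_offDiag.1 he).2.2]
    rw [Fintype.expect_eq_sum_div_card, sum_ind, Fintype.card_coe,
      div_le_div_iff₀ s0 (by positivity), one_mul]
    have a1 := (lo_sub S fun x => LoN J h (τ e.1) x).trans_le
      ((card_le_card (filter_subset_filter _ (subset_univ S))).trans (lo_ball L.deg (τ e.1) h))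
    have a2 := (Nat.mul_le_mul_right (8 * D ^ 2) a1).trans
      ((le_of_eq (by ring)).trans (h3.trans c1))
    convert (Nat.cast_le (α := ℝ)).2 a2 using 1
    push_cast
    congr
  have e3 : 𝔼 τ, Z τ ≤ 3 ^ t := by
    refine le_trans ?_ L.pot
    rw [expect_sum_comm]
    refine sum_le_sum fun I hI => ?_
    rw [← mul_expect, mul_assoc]
    refine mul_le_mul_of_nonneg_left ?_ (ind_nonneg _)
    by_cases k : b ≤ I.card
    · rw [Nat.succ_sub k, pow_succ, mul_assoc]
      refine mul_le_of_le_one_right (pow_nonneg l0 _) (le_trans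
        (mul_le_mul_of_nonneg_left ?_ l0) h1)
      have a1 := ex_mem_le (univ : Finset (Fin D)) (univ.filter fun x : S => (x : V) ∉ I)
      simp only [mem_filter, mem_univ, true_and, card_univ, Fintype.card_fin, forall_const,
        Fintype.card_coe] at a1
      refine a1.trans (pow_le_pow_left₀ (by positivity) ?_ _)
      rw [lo_sub S fun x => x ∉ I, ← sdiff_eq_filter, div_le_iff₀ s0,
        cast_card_sdiff ((mem_powerset.1 hI).trans sdiff_subset)]
      have a2 : (b : ℝ) ≤ I.card := by exact_mod_cast k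
      have a3 : (S.card : ℝ) ≤ 2 * m := by exact_mod_cast c2
      nlinarith only [a2, a3, h2, h4]
    · rw [Nat.sub_eq_zero_of_le (by omega), Nat.sub_eq_zero_of_le (by omega), pow_zero, one_mul]
      exact ex_le zero_le_one fun _ => ind_le_one _
  have e4 := (ex_markov (f := Z) (fun τ => sum_nonneg fun I _ => mul_nonneg (mul_nonneg
    (ind_nonneg _) (pow_nonneg l0 _)) (ind_nonneg _)) (a := 2 * 3 ^ t) (by positivity)).trans
    (div_le_div_of_nonneg_right e3 (by positivity))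
  have e5 := ex_mono pt
  simp only [expect_add_distrib, Fintype.expect_const, expect_sum_comm] at e5
  have e6 := sum_le_card_nsmul _ _ _ fun i (_ : i ∈ univ) => e1 i
  have e7 := sum_le_card_nsmul _ _ _ e2
  have e8 : ((univ : Finset (Fin D)).offDiag.card : ℝ) ≤ D ^ 2 := by
    rw [offDiag_card, card_univ, Fintype.card_fin, sq]
    exact_mod_cast Nat.sub_le _ _
  rw [card_univ, Fintype.card_fin, nsmul_eq_mul] at e6
  rw [nsmul_eq_mul] at e7
  have e9 := e7.trans (mul_le_mul_of_nonneg_right e8 (by positivity))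
  have f1 : (D : ℝ) * (1 / (8 * D)) = 1 / 8 := by field_simp
  have f2 : (D : ℝ) ^ 2 * (1 / (8 * D ^ 2)) = 1 / 8 := by field_simp
  have f3 : (3 : ℝ) ^ t / (2 * 3 ^ t) = 1 / 2 := by field_simp
  linarith only [e4, e5, e6, e9, f1, f2, f3]

lemma lo_col {m C : ℕ} (L : LoS h D b (4 ^ (2 * C)) B m S J) (m0 : 0 < m)
    (hb : 2 * C * b ≤ m) : ¬ (gr J).Colorable C := by
  rintro ⟨κ⟩
  have c1 : (S \ B).card = m := by rw [card_sdiff_of_subset L.sub, L.card]; omega
  obtain ⟨i, -, hi⟩ := exists_le_of_sum_le (s := (univ : Finset (Fin C))) (f := fun _ => m)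
    (g := fun i => C * ((S \ B).filter fun x => κ x = i).card)
    (by obtain ⟨x, -⟩ := card_pos.1 (c1 ▸ m0); exact ⟨κ x, mem_univ _⟩) (by
      rw [← mul_sum, ← card_eq_sum_card_fiberwise fun _ _ => mem_coe.2 (mem_univ _), c1]
      simp)
  have a1 := (single_le_sum (f := fun I => ind (LoI J I) * ((4 : ℝ) ^ (2 * C)) ^ (I.card - b))
    (fun I _ => mul_nonneg (ind_nonneg _) (by positivity))
    (mem_powerset.2 (filter_subset (fun x => κ x = i) (S \ B)))).trans L.pot
  rw [ind_pos (q := LoI J _) fun x hx y hy k =>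
    κ.valid k ((mem_filter.1 hx).2.trans (mem_filter.1 hy).2.symm), one_mul, ← pow_mul] at a1
  refine absurd ((pow_le_pow_right₀ (a := (4 : ℝ)) (by norm_num) (m := m) ?_).trans a1)
    (not_le.2 (pow_lt_pow_left₀ (by norm_num) (by norm_num) m0.ne'))
  rw [Nat.mul_sub, mul_assoc, mul_assoc] at *
  omega

end Pool.Agent.Work.MP_d4a230_co.U
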