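import Pool.Agent.Work.MP_d4a230_co.L.Prob

/-!
The lower bound `1 - 1 / r` for graphs without a colouring with `r ≥ 3` colours.
-/

namespace Pool.Agent.Work.MP_d4a230_co.U

open Finset Filter Topology Pool.Agent.Work.MP_07f1b5_pr
open scoped BigOperators

set_option linter.unusedSectionVars false

variable {W : Type} [Fintype W] [DecidableEq W] {H : SimpleGraph W} [DecidableRel H.Adj]
  {V : Type} [Fintype V] [DecidableEq V] {p : ℝ}

open Classical in
/-- Neighbours of `S` outside `R`. -/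
noncomputable def loX (R S : Finset V) (ξ : Finset (Sym2 V)) : Finset V :=
  univ.filter fun x => x ∉ R ∧ ∃ s ∈ S, s(s, x) ∈ ξ

lemma lo_det {r C : ℕ} (hH : ¬ H.Colorable (r + 3)) (cls : V → Fin (r + 3)) {R S : Finset V}
    {J ξ ω : Finset (Sym2 V)} (hS : S ⊆ R) (hJ : ∀ e ∈ J, ∀ x ∈ e, x ∈ S)
    (hB : LoB (Fintype.card W) J) (hC : ¬ (gr J).Colorable C) (h1 : J ⊆ ω)
    (h2 : ∀ u v, v ∉ R → s(u, v) ∈ ξ → s(u, v) ∈ ω) {a b y : ℝ} (hb : 0 ≤ b) (hy : y ≤ a - b)
    (e1 : ∀ v i, a ≤ nb (gr ξ) (univ.filter fun x => x ∉ R ∧ cls x ≠ i) v)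
    (e2 : ∀ v ∉ S, nb (gr ξ) (loX R S ξ) v ≤ b) : ¬ HEv (copies H V) y C ω := by
  classical
  let col : V → Fin (r + 3) := fun x => if x ∈ loX R S ξ then 0 else cls x
  let G := J ∪ ξ.filter fun e => ∃ u v, e = s(u, v) ∧ v ∉ R ∧ (u ∈ S ∨ col u ≠ col v)
  refine fun hE => hC ((hE G (union_subset h1 fun e he => ?_) (fun T hT hs => ?_)
    fun v => ?_).mono_left fun _ _ k => gr_adj.2 ⟨mem_union_left _ (gr_adj.1 k).1, k.ne⟩)
  · obtain ⟨a1, u, v, rfl, a2, -⟩ := mem_filter.1 he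
    exact h2 u v a2 a1
  · obtain ⟨f, -, rfl⟩ := mem_image.1 hT
    obtain ⟨κ, hκ⟩ := hB (univ.image f) (card_image_le.trans card_univ.le)
    let c : V → Fin (r + 3) := fun x => if x ∈ S then (if κ x then ⟨1, by omega⟩ else ⟨2, by omega⟩)
      else col x
    have key : ∀ u v, s(u, v) ∈ ξ → v ∉ R → (u ∈ S ∨ col u ≠ col v) → c u ≠ c v := by
      intro u v a1 a2 a3
      have a4 : v ∉ S := fun k => a2 (hS k)
      by_cases k : u ∈ S
      · have a5 : v ∈ loX R S ξ := mem_filter.2 ⟨mem_univ _, a2, u, k, a1⟩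
        simp only [c, col, if_pos k, if_neg a4, if_pos a5]
        split_ifs <;> exact Fin.ne_of_val_ne (by simp)
      · simp only [c, if_neg k, if_neg a4]
        exact a3.resolve_left k
    refine hH ⟨SimpleGraph.Coloring.mk (fun w => c (f w)) fun {x z} k => ?_⟩
    rcases mem_union.1 (hs (mem_img.2 k)) with e | e
    · have a1 := hκ _ (mem_image_of_mem f (mem_univ x)) _ (mem_image_of_mem f (mem_univ z))
        (gr_adj.2 ⟨e, f.injective.ne k.ne⟩)
      simp only [c, if_pos (hJ _ e _ (Sym2.mem_mk_left _ _)),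
        if_pos (hJ _ e _ (Sym2.mem_mk_right _ _))]
      split_ifs with b1 b2 b2
      exacts [absurd (iff_of_true b1 b2) a1, Fin.ne_of_val_ne (by simp),
        Fin.ne_of_val_ne (by simp), absurd (iff_of_false b1 b2) a1]
    · obtain ⟨a1, u, v, a2, a3, a4⟩ := mem_filter.1 e
      have a5 := key u v (a2 ▸ a1) a3 a4
      rcases Sym2.eq_iff.1 a2 with ⟨b1, b2⟩ | ⟨b1, b2⟩ <;> rw [b1, b2]
      exacts [a5, a5.symm]
  · have a0 := e1 v (col v)
    have a1 : ∀ u ∈ (univ.filter fun x => x ∉ R ∧ cls x ≠ col v).filter fun u => (gr ξ).Adj v u,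
        v ∈ S ∨ u ∉ loX R S ξ → u ∈ univ.filter fun u => (gr G).Adj v u := fun u hu k => by
      obtain ⟨b1, b2⟩ := mem_filter.1 hu
      obtain ⟨b3, b4⟩ := (mem_filter.1 b1).2
      refine mem_filter.2 ⟨mem_univ _, gr_adj.2 ⟨mem_union_right _ (mem_filter.2
        ⟨(gr_adj.1 b2).1, v, u, rfl, b3, k.imp_right fun k e => b4 ?_⟩), b2.ne⟩⟩
      rw [e]
      exact (if_neg k).symm
    rw [← dg_gr, MP_d4a230_co.dg, sum_ind]
    rw [nb, sum_ind] at a0
    by_cases k : v ∈ S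
    · have a2 := (Nat.cast_le (α := ℝ)).2 (card_le_card fun u hu => a1 u hu (Or.inl k))
      linarith only [hy, a0, a2, hb]
    · have a3 := e2 v k
      rw [nb, sum_ind] at a3
      have a2 := (Nat.cast_le (α := ℝ)).2 ((card_le_card fun u hu => mem_union.2
        ((em (u ∉ loX R S ξ)).imp (fun c => a1 u hu (Or.inr c)) fun c => (mem_filter (p := fun u =>
          (gr ξ).Adj v u)).2 ⟨not_not.1 c, (mem_filter.1 hu).2⟩)).trans (card_union_le _ _))
      push_cast at a2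
      linarith only [hy, a0, a2, a3]

lemma lo_low (p0 : 0 ≤ p) (p1 : p ≤ 1) (T : Finset V) (v : V) {z ε y : ℝ} (e0 : 0 ≤ ε) (z1 : z ≤ 1)
    (y0 : 0 ≤ y) (hT : z * y ≤ p * (T.erase v).card) :
    Pr p (fun ω => nb (gr ω) T v ≤ (z - 2 * ε) * y) ≤ Real.exp (-(ε ^ 2 * y)) := by
  simp only [nb_eq]
  refine (chernoff_low p0 p1 _ _ e0).trans (Real.exp_le_exp.2 ?_)
  rw [card_image_of_injective _ fun _ _ h => Sym2.congr_right.1 h]
  have a1 := mul_le_mul_of_nonneg_left hT (show 0 ≤ ε / (1 + ε) by positivity)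
  have a2 : ε * z - ε ^ 2 ≤ ε / (1 + ε) * z := by
    rw [div_mul_eq_mul_div, le_div_iff₀ (by positivity)]
    nlinarith only [mul_nonneg (sq_nonneg ε) (sub_nonneg.2 z1), mul_nonneg (sq_nonneg ε) e0]
  nlinarith only [a1, mul_le_mul_of_nonneg_right a2 y0]

lemma lo_X (p0 : 0 ≤ p) (p1 : p ≤ 1) {R S : Finset V} (hS : S ⊆ R) (k b : ℝ) :
    Pr p (fun ξ => ∃ v ∉ S, b ≤ nb (gr ξ) (loX R S ξ) v) ≤
      Real.exp (2 * p * (S.card * Fintype.card V) - k) +
        Fintype.card V * Real.exp (2 * (p * (2 * k)) - b) := by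
  classical
  let M : Finset (Sym2 V) := (S ×ˢ univ).image fun x : V × V => s(x.1, x.2)
  refine (lo_cond p0 p1 (univ.filter fun e => ∃ s ∈ S, s ∈ e) (u := fun ω =>
    ind (k ≤ ((ω ∩ M).card : ℝ)) + Fintype.card V * Real.exp (2 * (p * (2 * k)) - b))
    fun ω => ?_).trans ?_
  · by_cases e : k ≤ ((ω ∩ M).card : ℝ)
    · rw [ind_pos e]
      exact (E_le_one p0 p1 fun _ => ind_le_one _).trans (le_add_of_nonneg_right (by positivity))
    · rw [ind_neg e, zero_add]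
      have a1 : (loX R S ω).card ≤ (ω ∩ M).card * 2 := (card_le_card fun x hx => by
        obtain ⟨-, s, b1, b2⟩ := (mem_filter.1 hx).2
        exact mem_biUnion.2 ⟨_, mem_inter.2 ⟨b2, mem_image_of_mem _ (mem_product.2
          (show (s, x).1 ∈ S ∧ (s, x).2 ∈ univ from ⟨b1, mem_univ _⟩))⟩,
          Sym2.mem_toFinset.2 (Sym2.mem_mk_right _ _)⟩).trans
        (card_biUnion_le_card_mul _ Sym2.toFinset 2 fun e _ => by
          rw [Sym2.card_toFinset]; split_ifs <;> omega)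
      have a2 : ((loX R S ω).card : ℝ) ≤ (ω ∩ M).card * 2 := by exact_mod_cast a1
      refine le_trans (Pr_mono p0 p1 fun ξ ⟨v, b1, b2⟩ => ⟨v, mem_univ _, b2.trans ?_⟩)
        ((nbS_bound p0 p1 (loX R S ω) b).trans ?_)
      swap
      · unfold nb
        refine le_trans (sum_le_sum fun x hx => ind_mono fun a => gr_adj.2 ⟨?_, (gr_adj.1 a).2⟩)
          (sum_le_sum_of_subset_of_nonneg (fun x hx => ?_) fun _ _ _ => ind_nonneg _)
        · refine (mem_union.1 (gr_adj.1 a).1).elim (fun c => ?_) fun c => (mem_sdiff.1 c).1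
          obtain ⟨s, c1, c2⟩ := (mem_filter.1 (mem_inter.1 c).2).2
          rcases Sym2.mem_iff.1 c2 with rfl | rfl
          exacts [absurd c1 b1, absurd (hS c1) (mem_filter.1 hx).2.1]
        · obtain ⟨c0, s, c1, c2⟩ := (mem_filter.1 hx).2
          refine mem_filter.2 ⟨mem_univ _, c0, s, c1, (mem_union.1 c2).elim
            (fun c => (mem_inter.1 c).1) fun c => absurd ?_ (mem_sdiff.1 c).2⟩
          exact mem_filter.2 ⟨mem_univ _, s, c1, Sym2.mem_mk_left _ _⟩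
      · refine mul_le_mul_of_nonneg_left (Real.exp_le_exp.2 ?_) (Nat.cast_nonneg _)
        nlinarith only [a2, not_le.1 e, p0]
  · rw [E_add, E_const]
    refine add_le_add ((chernoff_up p0 p1 M k).trans ?_) le_rfl
    have : (M.card : ℝ) ≤ S.card * Fintype.card V := by
      exact_mod_cast card_image_le.trans (by rw [card_product, card_univ])
    gcongr

theorem lo_fin (p0 : 0 ≤ p) (p1 : p ≤ 1) {r C D b m : ℕ} (hH : ¬ H.Colorable (r + 3))
    (cls : V → Fin (r + 3)) {B A : Finset V} (hB : B.card = m) (m0 : 0 < m) (hb : 2 * C * b ≤ m)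
    {z ε y k x : ℝ} (e0 : 0 ≤ ε) (z1 : z ≤ 1) (y0 : 0 ≤ y) (x0 : 0 ≤ x)
    (hT : ∀ v i, z * y ≤ p * ((univ.filter fun u => u ∉ B ∪ A ∧ cls u ≠ i).erase v).card) :
    Pr p (HEv (copies H V) ((z - 2 * ε) * y - x) C) ≤
      Pr p (fun ω => ¬ LoL (Fintype.card W) D b (4 ^ (2 * C)) B A ω m) +
      (Fintype.card V * ((r + 3 : ℕ) * Real.exp (-(ε ^ 2 * y))) +
        (Real.exp (2 * p * (2 * m * Fintype.card V) - k) +
          Fintype.card V * Real.exp (2 * (p * (2 * k)) - x))) := by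
  classical
  refine (lo_cond p0 p1 (univ.filter fun e => ∀ u ∈ e, u ∈ B ∪ A) (u := fun ω =>
    ind (¬ LoL (Fintype.card W) D b (4 ^ (2 * C)) B A ω m) + _) fun ω => ?_).trans
    (le_of_eq ((E_add _ _).trans (congrArg _ (E_const _))))
  by_cases e : LoL (Fintype.card W) D b (4 ^ (2 * C)) B A ω m
  swap
  · rw [ind_pos e]
    exact (E_le_one p0 p1 fun _ => ind_le_one _).trans (le_add_of_nonneg_right (by positivity))
  rw [ind_neg (not_not.2 e), zero_add]
  obtain ⟨S, J, L, s1, s2⟩ := e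
  refine (Pr_mono p0 p1 (B := fun ξ => (∃ v ∈ univ, ∃ i ∈ univ, nb (gr ξ)
    (univ.filter fun u => u ∉ B ∪ A ∧ cls u ≠ i) v ≤ (z - 2 * ε) * y) ∨
      ∃ v ∉ S, x ≤ nb (gr ξ) (loX (B ∪ A) S ξ) v) fun ξ hξ => by_contra fun a => ?_).trans
    ((Pr_or_le p0 p1 _ _).trans (add_le_add ?_ ((lo_X p0 p1 s1 k x).trans ?_)))
  · simp only [not_or, not_exists, not_and, not_le] at a
    exact lo_det hH cls s1 L.ins L.bip (lo_col L m0 hb) (fun e he => mem_union_left _
      (Finset.mem_inter.2 ⟨s2 he, mem_filter.2 ⟨Finset.mem_univ _, fun u hu => s1 (L.ins e he u hu)⟩⟩))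
      (fun u v b1 b2 => mem_union_right _ (Finset.mem_sdiff.2 ⟨b2, fun c =>
        by exact b1 ((mem_filter.1 c).2 v (Sym2.mem_mk_right _ _))⟩)) x0 le_rfl
      (fun v i => (a.1 v (mem_univ _) i (mem_univ _)).le) (fun v c => (a.2 v c).le) hξ
  · refine (Pr_exists_le p0 p1 _ _).trans ((sum_le_card_nsmul _ _ _ fun v _ =>
      (Pr_exists_le p0 p1 _ _).trans (sum_le_card_nsmul _ _ _ fun i _ =>
        lo_low p0 p1 _ v e0 z1 y0 (hT v i))).trans_eq ?_)
    simp only [nsmul_eq_mul, card_univ, Fintype.card_fin]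
  · have : (S.card : ℝ) = 2 * m := by rw [L.card, hB]; push_cast; ring
    rw [this]

lemma lo_cls (n r : ℕ) (i : Fin (r + 3)) : ((univ.filter fun x : Fin n =>
    (⟨x % (r + 3), Nat.mod_lt _ (by omega)⟩ : Fin (r + 3)) = i).card : ℝ) ≤ n / (r + 3 : ℕ) + 1 := by
  refine le_trans ?_ (add_le_add (Nat.cast_div_le (α := ℝ)) le_rfl)
  have := card_le_card_of_injOn (s := univ.filter fun x : Fin n =>
    (⟨x % (r + 3), Nat.mod_lt _ (by omega)⟩ : Fin (r + 3)) = i) (t := range (n / (r + 3) + 1))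
    (fun x => x.val / (r + 3)) (fun x _ => mem_coe.2 (mem_range.2 (Nat.lt_succ_of_le
      (Nat.div_le_div_right x.2.le)))) fun x hx y hy e => Fin.ext (by
        have a1 := congrArg Fin.val ((mem_filter.1 (mem_coe.1 hx)).2.trans
          (mem_filter.1 (mem_coe.1 hy)).2.symm)
        rw [← Nat.div_add_mod x.val (r + 3), ← Nat.div_add_mod y.val (r + 3)]
        exact congrArg₂ _ (congrArg _ e) a1)
  rw [card_range] at this
  exact_mod_cast this

theorem lo_half {p : ℕ → ℝ} (p0 : ∀ n, 0 ≤ p n) (p1 : ∀ n, p n ≤ 1) (l0 : Tendsto p atTop (𝓝 0))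
    (l1 : Tendsto (fun n : ℕ => p n * n) atTop atTop) (l2 : ∀ γ : ℝ, 0 < γ →
      Tendsto (fun n : ℕ => (n : ℝ) * Real.exp (0 - γ * (p n * n))) atTop (𝓝 0))
    {r : ℕ} (hH : ¬ H.Colorable (r + 3)) {d : ℝ} (d0 : 0 < d) (d1 : d < 1 - 1 / (r + 3 : ℕ))
    {C : ℕ} (C0 : 0 < C) :
    ∀ᶠ n in atTop, Pr (p n) (HEv (copies H (Fin n)) (d * p n * n) C) ≤ 1 / 2 := by
  have r0 : (0 : ℝ) < (r + 3 : ℕ) := by positivity
  have r1 : (0 : ℝ) < 1 / (r + 3 : ℕ) := by positivity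
  have c1 : (1 : ℝ) ≤ C := by exact_mod_cast C0
  obtain ⟨ε, hε⟩ : ∃ ε : ℝ, ε = (1 - 1 / (r + 3 : ℕ) - d) / 25 := ⟨_, rfl⟩
  have e0 : 0 < ε := by linarith only [hε, d1]
  have e1 : ε ≤ 1 / 4 := by linarith only [hε, d0, r1]
  have ρ0 : (0 : ℝ) < 1 / (8 * C) := by positivity
  obtain ⟨D, hD⟩ := exists_pow_lt_of_lt_one (x := 1 / (4 : ℝ) ^ (2 * C)) (y := 1 - 1 / (8 * C))
    (by positivity) (by linarith only [ρ0])
  rw [lt_div_iff₀' (by positivity)] at hD
  have D0 : 0 < D := Nat.pos_of_ne_zero fun e => by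
    rw [e, pow_zero, mul_one] at hD
    exact hD.not_ge (one_le_pow₀ (by norm_num))
  have D1 : (1 : ℝ) ≤ D := by exact_mod_cast D0
  obtain ⟨q, hq⟩ : ∃ q : ℝ, q = (ε / (2 * D)) ^ D / 8 := ⟨_, rfl⟩
  have q0 : 0 < q := by rw [hq]; positivity
  have q1 : q ≤ 1 := by
    have := pow_le_one₀ (n := D) (a := ε / (2 * D)) (by positivity)
      ((div_le_one (by positivity)).2 (by linarith only [e1, D1]))
    linarith only [this, hq]
  obtain ⟨M, hM⟩ : ∃ M : ℕ, M = 8 * (D ^ 2 * (16 * D ^ 2 + 1) ^ Fintype.card W) + 2 * C := ⟨_, rfl⟩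
  have M2 : (2 : ℝ) ≤ M := by exact_mod_cast (by omega : 2 ≤ M)
  filter_upwards [(l0.mul_const (M : ℝ)).eventually (ge_mem_nhds (by simpa using e0)),
    l1.eventually_ge_atTop (16 / q), ((tendsto_natCast_atTop_atTop (R := ℝ)).const_mul_atTop
      e0).eventually_ge_atTop 4, ((l2 (q * ε ^ 2 / 16) (by positivity)).const_mul
      (((r + 3 : ℕ) : ℝ) + 3)).eventually (ge_mem_nhds (by norm_num : _ * (0 : ℝ) < 1 / 2))]
    with n a1 a2 a3 a4
  have y0 : 0 < p n * n := lt_of_lt_of_le (by positivity) a2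
  have n0 : (0 : ℝ) < n := pos_of_mul_pos_right y0 (p0 n) |> fun h => h
  have n1 : (1 : ℝ) ≤ n := by exact_mod_cast (show 0 < n by exact_mod_cast n0)
  have pp : 0 < p n := pos_of_mul_pos_left y0 n0.le |> fun h => h
  have y1 : p n * n ≤ n := mul_le_of_le_one_left n0.le (p1 n)
  obtain ⟨m, hm⟩ : ∃ m, m = ⌊ε / p n⌋₊ := ⟨_, rfl⟩
  have m1 : m * p n ≤ ε := (le_div_iff₀ pp).1 (hm ▸ Nat.floor_le (by positivity))
  have m2 : ε < (m + 1) * p n := (div_lt_iff₀ pp).1 (hm ▸ Nat.lt_floor_add_one _)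
  have m3 : M ≤ m := hm ▸ Nat.le_floor ((le_div_iff₀' pp).2 a1)
  have m4 : ε / 2 ≤ m * p n := by nlinarith only [m2, a1, M2, pp]
  have m5 : (m : ℝ) ≤ q * (ε * n) / 16 := by
    rw [div_le_iff₀ q0] at a2
    nlinarith only [mul_le_mul_of_nonneg_right m1 (mul_pos q0 n0).le,
      mul_le_mul_of_nonneg_left a2 (Nat.cast_nonneg (α := ℝ) m)]
  have m6 : (m : ℝ) ≤ ε * n / 16 := by nlinarith only [m5, q1, a3]
  obtain ⟨a, ha⟩ : ∃ a, a = ⌊ε * n / 2⌋₊ := ⟨_, rfl⟩
  have b1 : (a : ℝ) ≤ ε * n / 2 := ha ▸ Nat.floor_le (by positivity)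
  have b2 : ε * n / 2 < a + 1 := ha ▸ Nat.lt_floor_add_one _
  have b3 : m + a ≤ n := by
    have : (m : ℝ) + a ≤ n := by nlinarith only [m6, b1, e1, n0]
    exact_mod_cast this
  obtain ⟨B, -, hB⟩ := exists_subset_card_eq (s := (univ : Finset (Fin n))) (n := m)
    (by rw [card_univ, Fintype.card_fin]; omega)
  obtain ⟨A, hA1, hA⟩ := exists_subset_card_eq (s := Bᶜ) (n := a)
    (by rw [card_compl, Fintype.card_fin]; omega)
  have f1 := lo_proc (h := Fintype.card W) (b := m / (2 * C)) (p0 n) (p1 n) hB (by omega)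
    (by positivity) D0 (q := q) hD.le (by
      have g1 := Nat.lt_mul_div_succ m (show 0 < 2 * C by omega)
      have g2 := Nat.div_pos (show 2 * C ≤ m by omega) (by omega)
      have g3 : m ≤ m / (2 * C) * (4 * C) := by nlinarith only [g1, g2]
      rw [sub_sub_cancel, one_div, inv_mul_le_iff₀ (by positivity)]
      exact_mod_cast (by nlinarith only [g3] : 2 * m ≤ 8 * C * (m / (2 * C))))
    (by linarith only [ρ0]) (by omega) q1 (by
      have g1 := one_add_mul_le_pow (a := -p n) (by linarith only [p1 n]) (2 * m)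
      have g2 := pow_le_pow_left₀ (by positivity) m4 D
      have g3 : (D : ℝ) ^ D * q = (ε / 2) ^ D / 8 := by
        rw [hq, ← mul_div_assoc, ← mul_pow]
        congr 2
        field_simp
      rw [← sub_eq_add_neg] at g1
      push_cast at g1
      rw [g3, mul_pow] at *
      nlinarith only [g2, mul_le_mul_of_nonneg_left (show 1 / 2 ≤ (1 - p n) ^ (2 * m) by
        linarith only [g1, m1, e1]) (show 0 ≤ (m : ℝ) ^ D * p n ^ D by positivity)]) A
    (disjoint_left.2 fun x k => mem_compl.1 (hA1 k))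
  have f2 := lo_fin (H := H) (D := D) (A := A) (p0 n) (p1 n) hH
    (fun x : Fin n => ⟨x % (r + 3), Nat.mod_lt _ (by omega)⟩) hB (by omega)
    (Nat.mul_div_le m (2 * C)) (z := 1 - 1 / (r + 3 : ℕ) - 2 * ε) (y := p n * n) (k := 5 * (ε * n))
    (x := 21 * ε * (p n * n)) e0.le (by linarith only [r1, e0]) y0.le (by positivity) fun v i => by
      rw [mul_left_comm]
      refine mul_le_mul_of_nonneg_left ?_ pp.le
      have g1 := card_le_card (s := univ) (t := insert v (((univ.filter fun u : Fin n =>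
        u ∉ B ∪ A ∧ (⟨u % (r + 3), Nat.mod_lt _ (by omega)⟩ : Fin (r + 3)) ≠ i).erase v ∪
          (B ∪ A)) ∪ univ.filter fun u : Fin n =>
          (⟨u % (r + 3), Nat.mod_lt _ (by omega)⟩ : Fin (r + 3)) = i)) fun u _ => by
        simp only [mem_insert, mem_union, mem_erase, mem_filter, mem_univ, true_and]
        tauto
      have g2 := (Nat.cast_le (α := ℝ)).2 (g1.trans ((card_insert_le _ _).trans (Nat.succ_le_succ
        ((card_union_le _ _).trans (add_le_add ((card_union_le _ _).trans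
          (add_le_add le_rfl (card_union_le _ _))) le_rfl)))))
      have g3 := lo_cls n r i
      rw [card_univ, Fintype.card_fin, hA, hB, Nat.cast_succ, Nat.cast_add, Nat.cast_add,
        Nat.cast_add] at g2
      rw [div_eq_mul_one_div] at g3
      linarith only [g2, g3, m6, b1, a3]
  rw [Fintype.card_fin, show (1 - 1 / (r + 3 : ℕ) - 2 * ε - 2 * ε) * (p n * n) -
    21 * ε * (p n * n) = d * p n * n by rw [hε]; ring] at f2
  have k0 : ∀ t, t ≤ -(q * ε ^ 2 / 16 * (p n * n)) → Real.exp t ≤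
      Real.exp (0 - q * ε ^ 2 / 16 * (p n * n)) := fun t k => Real.exp_le_exp.2 (by linarith only [k])
  have k1 : q * ε ^ 2 / 16 * (p n * n) ≤ ε ^ 2 * (p n * n) :=
    mul_le_mul_of_nonneg_right (by nlinarith only [q1, sq_nonneg ε]) y0.le
  have k2 : ε ^ 2 * (p n * n) ≤ ε * (p n * n) :=
    mul_le_mul_of_nonneg_right (by nlinarith only [e0, e1]) y0.le
  have k3 : ε * (p n * n) ≤ ε * n := mul_le_mul_of_nonneg_left y1 e0.le
  have k4 : ε ^ 2 * (p n * n) ≤ ε * n := k2.trans k3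
  have u1 : (2 : ℝ) ^ m * (1 - q / 2) ^ A.card ≤ Real.exp (m + a * -(q / 2)) := by
    rw [Real.exp_add, hA, Real.exp_nat_mul, ← mul_one (m : ℝ), Real.exp_nat_mul]
    exact mul_le_mul (pow_le_pow_left₀ zero_le_two (by linarith only [Real.add_one_le_exp 1]) _)
      (pow_le_pow_left₀ (by linarith only [q1]) (by linarith only [Real.add_one_le_exp (-(q / 2))])
        _) (pow_nonneg (by linarith only [q1]) _) (by positivity)
  have u2 := u1.trans (k0 _ (by
    nlinarith only [m5, mul_le_mul_of_nonneg_left k4 q0.le,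
      mul_le_mul_of_nonneg_left (show ε * n / 4 ≤ a by linarith only [b2, a3]) q0.le]))
  have u3 := k0 (-(ε ^ 2 * (p n * n))) (by linarith only [k1])
  have u4 := k0 (2 * p n * (2 * m * n) - 5 * (ε * n))
    (by nlinarith only [k1, k4, mul_le_mul_of_nonneg_right m1 n0.le])
  have u5 := k0 (2 * (p n * (2 * (5 * (ε * n)))) - 21 * ε * (p n * n)) (by linarith only [k1, k2])
  generalize Real.exp (0 - q * ε ^ 2 / 16 * (p n * n)) = Y at *
  have Y0 : 0 ≤ Y := (Real.exp_pos _).le.trans u3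
  have u6 := le_mul_of_one_le_left Y0 n1
  have u7 := mul_le_mul_of_nonneg_left (mul_le_mul_of_nonneg_left u3 r0.le) n0.le
  have u8 := mul_le_mul_of_nonneg_left u5 n0.le
  linarith only [f1, f2, u2, u4, u6, u7, u8, a4]

theorem lo_main {p : ℕ → unitInterval} (l0 : Tendsto (fun n => (p n : ℝ)) atTop (𝓝 0))
    (l1 : Tendsto (fun n : ℕ => (p n : ℝ) * n) atTop atTop) (l2 : ∀ γ : ℝ, 0 < γ →
      Tendsto (fun n : ℕ => (n : ℝ) * Real.exp (0 - γ * (p n * n))) atTop (𝓝 0))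
    {r : ℕ} (hr : 3 ≤ r) (hH : ¬ H.Colorable r) : 1 - 1 / (r : ℝ) ≤ chromThreshold H p := by
  obtain ⟨r, rfl⟩ : ∃ s, r = s + 3 := ⟨r - 3, by omega⟩
  have p0 : ∀ n, (0 : ℝ) ≤ p n := fun n => (p n).2.1
  have p1 : ∀ n, (p n : ℝ) ≤ 1 := fun n => (p n).2.2
  rw [hchrom_eq]
  refine le_csInf ⟨3, three_pos, 0, whp_of_le p0 p1 (l2 1 one_pos)
    ((eventually_gt_atTop 0).mono fun n hn => ?_)⟩ fun d ⟨d0, C, hC⟩ => not_lt.1 fun d1 => ?_
  · refine le_trans (Pr_mono (p0 n) (p1 n) fun ω k => ?_)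
      ((nbS_bound (p0 n) (p1 n) univ (3 * p n * n)).trans_eq ?_)
    · unfold HEv at k
      simp only [not_forall] at k
      obtain ⟨ω2, k1, -, k2, -⟩ := k
      refine ⟨⟨0, hn⟩, mem_univ _, (k2 _).trans ((dg_gr _ _).symm.trans_le
        (sum_le_sum fun u _ => ind_mono fun a => gr_adj.2 ⟨k1 (gr_adj.1 a).1, a.ne⟩))⟩
    · rw [card_univ, Fintype.card_fin]
      congr 2
      ring
  · obtain ⟨n, k1, k2⟩ := ((lo_half p0 p1 l0 l1 l2 hH d0 d1 C.succ_pos).and
      (hC.eventually (lt_mem_nhds (show (1 : ℝ) / 2 < 1 by norm_num)))).exists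
    exact (k2.trans_le (Pr_mono (p0 n) (p1 n) fun ω k ω2 a b c =>
      (k ω2 a b c).mono (Nat.le_succ C))).not_ge k1

theorem lo_log {p : ℕ → unitInterval} (l0 : Tendsto (fun n => (p n : ℝ)) atTop (𝓝 0))
    (l1 : Tendsto (fun n : ℕ => (p n : ℝ) * n / Real.log n) atTop atTop)
    {r : ℕ} (hr : 3 ≤ r) (hH : ¬ H.Colorable r) : 1 - 1 / (r : ℝ) ≤ chromThreshold H p := by
  have l2 := Real.tendsto_log_atTop.comp (tendsto_natCast_atTop_atTop (R := ℝ))
  refine lo_main l0 (tendsto_atTop_mono' _ ?_ l2) (fun γ hγ => squeeze_zero'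
    (Eventually.of_forall fun n => by positivity) ?_ (tendsto_one_div_atTop_nhds_zero_nat (𝕜 := ℝ)))
    hr hH
  · filter_upwards [l1.eventually_ge_atTop 1, l2.eventually_gt_atTop 0] with n a1 a2
    exact (one_le_div a2).1 a1
  · filter_upwards [l1.eventually_ge_atTop (2 / γ), l2.eventually_gt_atTop 0,
      eventually_gt_atTop 0] with n a1 a2 a3
    have n0 : (0 : ℝ) < n := by exact_mod_cast a3
    rw [div_le_div_iff₀ hγ (show 0 < Real.log n from a2)] at a1
    refine (mul_le_mul_of_nonneg_left (Real.exp_le_exp.2 (show _ ≤ -Real.log n + -Real.log n by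
      linarith only [a1])) n0.le).trans_eq ?_
    rw [Real.exp_add, Real.exp_neg, Real.exp_log n0]
    field_simp

end Pool.Agent.Work.MP_d4a230_co.U
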