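import Pool.Agent.Work.MP_d4a230_co.L.Det

/-!
The construction succeeds in the random graph.
-/

namespace Pool.Agent.Work.MP_d4a230_co.U

open Finset Filter Topology Pool.Agent.Work.MP_07f1b5_pr
open scoped BigOperators

set_option linter.unusedSectionVars false

lemma lo_cond {ι : Type} [Fintype ι] [DecidableEq ι] {p : ℝ} (p0 : 0 ≤ p) (p1 : p ≤ 1)
    (Z : Finset ι) {g u : Finset ι → ℝ} (hu : ∀ ω, E p (fun ξ => g (ω ∩ Z ∪ ξ \ Z)) ≤ u ω) :
    E p g ≤ E p u := by
  refine le_trans (le_of_eq ?_) (E_mono p0 p1 hu)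
  have e0 : ∀ (f : Finset ι → ℝ) (B : Finset ι), f B = ∑ A, ind (B = A) * f A := fun f B => by
    rw [sum_eq_single B (fun A _ h => by rw [ind_neg h.symm, zero_mul]) (by simp), ind_pos rfl,
      one_mul]
  have e1 : ∀ ω, g ω = ∑ A, ind (ω ∩ Z = A) * g (A ∪ ω \ Z) := fun ω => by
    rw [← e0 (fun A => g (A ∪ ω \ Z)), union_comm, sdiff_union_inter]
  rw [E_congr e1, E_congr fun ω => e0 (fun A => E p fun ξ => g (A ∪ ξ \ Z)) (ω ∩ Z), E_sum, E_sum]
  exact sum_congr rfl fun A _ => (Ex_indep _ Z _ _ (fun _ _ e => by rw [e])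
    fun _ _ e => by rw [e]).trans (Ex_mul_const _ _ _).symm

variable {V : Type} [Fintype V] [DecidableEq V] {h D b t : ℕ} {lam p : ℝ} {B S : Finset V}

lemma lo_hit (p0 : 0 ≤ p) (p1 : p ≤ 1) (v : V) (P : (Fin D → S) → Prop) :
    (S.card : ℝ) ^ D * (𝔼 τ, ind (P τ)) * (p ^ D * (1 - p) ^ S.card) ≤
      D ^ D * Pr p fun ω => ∃ τ, P τ ∧ (loQ v fun i => (τ i : V)) ⊆ ω := by
  classical
  let M : Finset (Sym2 V) := S.image fun x => s(v, x)
  let f : (Fin D → S) → Finset (Sym2 V) → ℝ := fun τ ω => ind (P τ) *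
    (ind ((loQ v fun i => (τ i : V)) ⊆ ω) * 0 ^ (ω ∩ (M \ loQ v fun i => (τ i : V))).card)
  have f1 : ∀ τ, ind (P τ) * (p ^ D * (1 - p) ^ S.card) ≤ E p (f τ) := fun τ => by
    rw [E_const_mul, E_plant_pow _ _ disjoint_sdiff, zero_sub, mul_neg_one, ← sub_eq_add_neg]
    exact mul_le_mul_of_nonneg_left (mul_le_mul
      (pow_le_pow_of_le_one p0 p1 (card_image_le.trans (by simp)))
      (pow_le_pow_of_le_one (sub_nonneg.2 p1) (sub_le_self _ p0)
        ((card_le_card sdiff_subset).trans card_image_le))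
      (pow_nonneg (sub_nonneg.2 p1) _) (pow_nonneg p0 _)) (ind_nonneg _)
  have f2 : ∀ τ ω, f τ ω ≠ 0 → P τ ∧ (loQ v fun i => (τ i : V)) ⊆ ω ∧
      ω ∩ (M \ loQ v fun i => (τ i : V)) = ∅ := fun τ ω k =>
    ⟨by_contra fun e => left_ne_zero_of_mul k (ind_neg e),
      by_contra fun e => left_ne_zero_of_mul (right_ne_zero_of_mul k) (ind_neg e),
      by_contra fun e => right_ne_zero_of_mul (right_ne_zero_of_mul k)
        (zero_pow (card_ne_zero.2 (nonempty_iff_ne_empty.2 e)))⟩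
  have f3 : ∀ τ ω, f τ ω ≤ 1 := fun τ ω => mul_le_one₀ (ind_le_one _)
    (mul_nonneg (ind_nonneg _) (pow_nonneg le_rfl _))
    (mul_le_one₀ (ind_le_one _) (pow_nonneg le_rfl _) (pow_le_one₀ le_rfl zero_le_one))
  have f4 : ∀ ω, ∑ τ, f τ ω ≤ D ^ D * ind (∃ τ, P τ ∧ (loQ v fun i => (τ i : V)) ⊆ ω) := fun ω => by
    by_cases k : ∃ τ, f τ ω ≠ 0
    · obtain ⟨τ0, k⟩ := k
      obtain ⟨a1, a2, a3⟩ := f2 _ _ k
      rw [ind_pos ⟨τ0, a1, a2⟩, mul_one, ← sum_subset (subset_univ
        (Fintype.piFinset fun _ => univ.image τ0)) fun τ _ e => by_contra fun k2 => e ?_]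
      · refine (sum_le_card_nsmul _ _ 1 fun τ _ => f3 τ ω).trans ?_
        rw [nsmul_eq_mul, mul_one, Fintype.card_piFinset, prod_const, card_univ, Fintype.card_fin]
        exact_mod_cast Nat.pow_le_pow_left (card_image_le.trans (by simp)) _
      · refine Fintype.mem_piFinset.2 fun i => by_contra fun e2 => ?_
        refine notMem_empty s(v, (τ i : V)) (a3 ▸ mem_inter.2 ⟨(f2 _ _ k2).2.1
          (mem_image_of_mem _ (mem_univ i)), mem_sdiff.2 ⟨mem_image_of_mem _ (τ i).2, fun e3 => ?_⟩⟩)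
        obtain ⟨j, -, e3⟩ := mem_image.1 e3
        exact e2 (mem_image.2 ⟨j, mem_univ _, Subtype.ext (Sym2.congr_right.1 e3)⟩)
    · rw [sum_eq_zero fun τ _ => by_contra fun e => k ⟨τ, e⟩]
      exact mul_nonneg (by positivity) (ind_nonneg _)
  have e : (S.card : ℝ) ^ D = Fintype.card (Fin D → S) := by simp
  rw [e, Fintype.card_mul_expect, sum_mul, Pr, ← E_const_mul]
  exact (sum_le_sum fun τ _ => f1 τ).trans ((E_sum _ _).symm.trans_le (E_mono p0 p1 f4))

variable (h D b lam B) in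
/-- Level `t` is reached inside `B ∪ A`. -/
def LoL (A : Finset V) (ω : Finset (Sym2 V)) (t : ℕ) : Prop :=
  ∃ S J, LoS h D b lam B t S J ∧ S ⊆ B ∪ A ∧ J ⊆ ω

theorem lo_proc (p0 : 0 ≤ p) (p1 : p ≤ 1) {m : ℕ} (hB : B.card = m) (m0 : 0 < m)
    (l0 : 0 ≤ lam) (D0 : 0 < D) {ρ q : ℝ} (h1 : lam * ρ ^ D ≤ 1) (h2 : (1 - ρ) * (2 * m) ≤ b)
    (h4 : ρ ≤ 1) (h3 : 8 * (D ^ 2 * (16 * D ^ 2 + 1) ^ h) ≤ m) (q1 : q ≤ 1)
    (hq : D ^ D * q ≤ (m : ℝ) ^ D * (1 / 4) * (p ^ D * (1 - p) ^ (2 * m))) (A : Finset V)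
    (hA : Disjoint A B) :
    Pr p (fun ω => ¬ LoL h D b lam B A ω m) ≤ 2 ^ m * (1 - q / 2) ^ A.card := by
  classical
  let θ : ℕ → ℝ := fun t => ind (t < m) * (1 / 2) ^ t
  have t0 : ∀ t, 0 ≤ θ t := fun t => mul_nonneg (ind_nonneg _) (by positivity)
  have t1 : ∀ s t k, s + k ≤ t → θ t ≤ θ s * (1 / 2) ^ k := fun s t k e => by
    rw [mul_assoc, ← pow_add]
    exact mul_le_mul (ind_mono (by omega)) (pow_le_pow_of_le_one (by norm_num) (by norm_num) e)
      (by positivity) (ind_nonneg _)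
  have z : ∀ A ω, LoL h D b lam B A ω (Nat.findGreatest (LoL h D b lam B A ω) m) := fun A ω =>
    Nat.findGreatest_spec (Nat.zero_le m) ⟨B, ∅, lo_zero, subset_union_left, empty_subset _⟩
  have main : E p (fun ω => θ (Nat.findGreatest (LoL h D b lam B A ω) m)) ≤
      (1 - q / 2) ^ A.card := by
    induction A using Finset.induction_on with
    | empty =>
      exact E_le_one p0 p1 fun ω => mul_le_one₀ (ind_le_one _) (by positivity)
        (pow_le_one₀ (by norm_num) (by norm_num))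
    | insert v A hv ih =>
      rw [card_insert_of_notMem hv, pow_succ']
      refine le_trans ?_ (mul_le_mul_of_nonneg_left (ih (disjoint_insert_left.1 hA).2)
        (by linarith only [q1]))
      rw [← E_const_mul]
      refine lo_cond p0 p1 (univ.filter fun e => v ∉ e) fun ω => ?_
      obtain ⟨S, J, L, s1, s2⟩ := z A ω
      have le := Nat.findGreatest_le (P := LoL h D b lam B A ω) m
      generalize Nat.findGreatest (LoL h D b lam B A ω) m = t at L le
      have vS : v ∉ S := fun k => (mem_union.1 (s1 k)).elim (disjoint_insert_left.1 hA).1 hv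
      have s3 : ∀ ξ, J ⊆ ω ∩ (univ.filter fun e => v ∉ e) ∪ ξ \ univ.filter fun e => v ∉ e :=
        fun ξ e he => mem_union_left _ (mem_inter.2 ⟨s2 he, mem_filter.2
          ⟨mem_univ _, fun k => vS (L.ins e he v k)⟩⟩)
      have s4 := s1.trans (union_subset_union_right (subset_insert v A))
      have c1 : m ≤ S.card := by rw [L.card]; omega
      have c2 : S.card ≤ 2 * m := by rw [L.card]; omega
      have a1 := (hq.trans (mul_le_mul (mul_le_mul (pow_le_pow_left₀ (by positivity)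
        (Nat.cast_le.2 c1) _) (lo_many L hB le m0 l0 D0 h1 h2 h4 h3) (by norm_num) (by positivity))
        (mul_le_mul_of_nonneg_left (pow_le_pow_of_le_one (sub_nonneg.2 p1) (sub_le_self _ p0) c2)
          (pow_nonneg p0 _)) (mul_nonneg (pow_nonneg p0 _) (pow_nonneg (sub_nonneg.2 p1) _))
        (mul_nonneg (by positivity) (expect_nonneg fun _ _ => ind_nonneg _)))).trans
        (lo_hit p0 p1 v _)
      have a2 := le_of_mul_le_mul_left a1 (by positivity)
      refine (E_mono p0 p1 (g := fun ξ => θ t - θ t / 2 * ind (∃ τ : Fin D → S, (∀ v ∉ S,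
        LoS h D b lam B (t + 1) (insert v S) (J ∪ loQ v fun i => τ i)) ∧
        (loQ v fun i => (τ i : V)) ⊆ ξ)) fun ξ => ?_).trans ?_
      · by_cases k : t < m ∧ ∃ τ : Fin D → S, (∀ v ∉ S,
          LoS h D b lam B (t + 1) (insert v S) (J ∪ loQ v fun i => τ i)) ∧
          (loQ v fun i => (τ i : V)) ⊆ ξ
        · rw [ind_pos k.2]
          obtain ⟨k1, τ, k2, k3⟩ := k
          refine (t1 t _ 1 (Nat.le_findGreatest k1 ⟨_, _, k2 v vS, insert_subset
            (mem_union_right _ (mem_insert_self _ _)) s4, union_subset (s3 ξ) fun e he =>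
            mem_union_right _ (mem_sdiff.2 ⟨k3 he, fun a => (mem_filter.1 a).2 ?_⟩)⟩)).trans_eq
            (by ring)
          obtain ⟨i, -, rfl⟩ := mem_image.1 he
          exact Sym2.mem_mk_left _ _
        · refine (t1 t _ 0 (Nat.le_findGreatest le ⟨S, J, L, s4, s3 ξ⟩)).trans_eq ?_
          rcases not_and_or.1 k with k | k
          · simp only [θ, ind_neg k]; ring
          · rw [ind_neg k]; ring
      · rw [E_sub, E_const, E_const_mul]
        have := mul_le_mul_of_nonneg_left a2 (t0 t)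
        unfold Pr at this
        linarith only [this]
  refine le_trans ?_ (mul_le_mul_of_nonneg_left main (by positivity))
  rw [← E_const_mul]
  refine E_mono p0 p1 fun ω => ?_
  by_cases k : LoL h D b lam B A ω m
  · rw [ind_neg (not_not.2 k)]
    exact mul_nonneg (by positivity) (t0 _)
  · have a1 : Nat.findGreatest (LoL h D b lam B A ω) m < m :=
      (Nat.findGreatest_le m).lt_of_ne fun e => k (e ▸ z A ω)
    simp only [θ, ind_pos k, ind_pos a1, one_mul]
    refine le_trans (le_of_eq ?_) (mul_le_mul_of_nonneg_left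
      (pow_le_pow_of_le_one (by norm_num) (by norm_num) a1.le) (by positivity))
    rw [← mul_pow]
    norm_num

end Pool.Agent.Work.MP_d4a230_co.U
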