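import Pool.Agent.Work.MP_d4a230_co.L.Main
import Pool.Agent.Work.MP_d4a230_co.E.Stmt

/-!
Cliques as cores.
-/

namespace Pool.Agent.Work.MP_d4a230_co.U

open Finset Filter Topology

set_option linter.unusedSectionVars false

variable {W W0 : Type} [Fintype W] [DecidableEq W] [Fintype W0] [DecidableEq W0]
  {H : SimpleGraph W} [DecidableRel H.Adj] {F : SimpleGraph W0} [DecidableRel F.Adj]
  {φ : W0 ↪ W}

lemma lo_le (h : F = ⊤) {r : ℕ} (hr : F.Colorable r) : Fintype.card W0 ≤ r := by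
  obtain ⟨κ⟩ := hr
  exact (Fintype.card_le_of_injective κ fun a b e => by_contra fun k => κ.valid (h.ge k) e).trans_eq
    (Fintype.card_fin r)

lemma lo_top (C : Core H F φ) {r : ℕ} (hr : Fintype.card W0 ≤ r) : EDeg H φ r := by
  have h3 : (3 : ℝ) ≤ Fintype.card W0 := by exact_mod_cast C.h3
  have h1 : (F.edgeFinset.card : ℝ) ≤ Fintype.card W0 * (Fintype.card W0 - 1) / 2 := by
    rw [← Nat.cast_choose_two]
    exact_mod_cast F.card_edgeFinset_le_card_choose_two
  have h2 : (Fintype.card W0 : ℝ) ≤ r := by exact_mod_cast hr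
  refine e_deg C ?_
  rw [← mul_div_assoc, div_le_iff₀ (by linarith only [h3])]
  nlinarith only [h1, h2, h3]

lemma lo_clq (C : Core H F φ) (h : F = ⊤) (hH : H.Colorable (Fintype.card W0)) :
    ∃ χ : H →g F, ∀ a, χ (φ a) = a := by
  have h3 := C.h3
  refine e_clq C (r := Fintype.card W0 - 1) (fun k => ?_) (hH.mono (by omega)) fun a b k => h.ge k
  have := lo_le h k
  omega

lemma lo_eq {p : ℕ → unitInterval} {h k K0 : ℕ} {μ Λ z : ℝ}
    (R : HReg (fun n => p n) (fun n => copies F (Fin n)) h k K0 μ Λ)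
    (h1 : chromThreshold H p ∈ Set.Icc (turanThreshold F p) (max (turanThreshold F p) z)) {r : ℕ}
    (hr : 3 ≤ r) (hH : ¬ H.Colorable r) (hz : z ≤ 1 - 1 / (r : ℝ)) :
    chromThreshold H p = max (turanThreshold F p) (1 - 1 / (r : ℝ)) :=
  le_antisymm (h1.2.trans (max_le_max le_rfl hz))
    (max_le h1.1 (lo_main R.lim0 R.inf (fun _ hγ => R.decay hγ 0) hr hH))

end Pool.Agent.Work.MP_d4a230_co.U
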