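import Pool.Agent.Work.MP_d4a230_co.KMain

/-!
The sparse Turán bound with a minimum degree condition for large constants.
-/

namespace Pool.Agent.Work.MP_d4a230_co

open Finset Filter Topology

variable {W : Type} [Fintype W] [DecidableEq W] {H : SimpleGraph W} [DecidableRel H.Adj]

theorem lo_tur (B : HBal H) {r : ℕ} (hr0 : 0 < r) (hr1 : H.Colorable (r + 1)) {ε : ℝ} (hε : 0 < ε) :
    ∃ Λ0 : ℝ, ∀ (p : ℕ → ℝ) (μ Λ : ℝ), GReg H p μ Λ → Λ0 ≤ Λ →
      Whp p fun n => HEv (copies H (Fin n)) ((1 - 1 / (r : ℝ) + ε) * p n * n) 0 := by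
  classical
  obtain ⟨β, hβ, hdense⟩ := dense_part B hr0 hr1 (half_pos hε)
  set h := Fintype.card W
  set k := H.edgeFinset.card
  have K1 : 1 ≤ kz W := Nat.one_le_two_pow
  have K2 : (0 : ℝ) < kz W := by exact_mod_cast K1
  set ζ := min (ε / 8) 1 with hζ
  have z0 : 0 < ζ := by positivity
  have z1 : ζ ≤ 1 := min_le_right _ _
  have z2 : ζ ≤ ε / 8 := min_le_left _ _
  have z3 : ζ ^ 4 / 256 ≤ ζ := by
    have := pow_le_of_le_one z0.le z1 (n := 4) (by norm_num)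
    linarith only [z0, this]
  set d := β / (24 * (4 ^ k * kz W)) with hd
  have d0 : 0 < d := by positivity
  set c := max 2 (2 / (d * (ζ ^ 4 / 256))) with hc
  have c2 : 2 ≤ c := le_max_left _ _
  have c0 : 0 < c := by linarith only [c2]
  have c3 : 2 ≤ c * (d * (ζ ^ 4 / 256)) := (div_le_iff₀ (by positivity)).1 (le_max_right _ _)
  refine ⟨2 * c ^ (k - 1), fun p μ Λ R hΛ => ?_⟩
  have q0 : ∀ n, 0 ≤ p n / c := fun n => div_nonneg (R.p0 n) c0.le
  have q1 : ∀ n, p n / c ≤ p n := fun n => div_le_self (R.p0 n) (by linarith only [c2])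
  have q2 : ∀ n, p n / c ≤ 1 / 2 := fun n => by
    rw [div_le_iff₀ c0]; linarith only [c2, R.p1 n]
  choose f hf using fun n => containers (q := p n / c)
    (𝓘 := fun I => ∀ T ∈ copies H (Fin n), ¬ T ⊆ I) (q0 n) (q2 n)
    (fun A A' hA h1 T hT h2 => h1 T hT (h2.trans hA)) d0.le
  have hex : ∀ (n : ℕ) (C : Finset (Sym2 (Fin n))), ∃ π : Fin n → Fin r,
      (∃ π' : Fin n → Fin r, 2 * ((C.filter fun e => ¬ e.IsDiag).card : ℝ) +
        2 * ((C.filter (Ins π')).card : ℝ) ≤ (1 - 1 / (r : ℝ) + ε / 2) * (n : ℝ) ^ 2) →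
      2 * ((C.filter fun e => ¬ e.IsDiag).card : ℝ) +
        2 * ((C.filter (Ins π)).card : ℝ) ≤ (1 - 1 / (r : ℝ) + ε / 2) * (n : ℝ) ^ 2 := fun n C =>
    (em _).elim (fun h' => h'.imp fun _ h1 _ => h1) fun h' => ⟨fun _ => ⟨0, hr0⟩, fun h1 => absurd h1 h'⟩
  choose g hg using hex
  refine (R.whp_union z0 z1 fun n T => (f n T).filter fun e => ¬ e.IsDiag).mono R.p0 R.p1 ?_
  obtain ⟨θ, t1, t2, -⟩ := R.theta
  have cp : 0 < c ^ (k - 1) := pow_pos c0 _
  filter_upwards [hdense, t1, t2.eventually (ge_mem_nhds one_pos), eventually_gt_atTop 0,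
    R.lim.eventually (le_mem_nhds (show c ^ (k - 1) < Λ by linarith only [hΛ, cp])),
    R.inf.eventually (eventually_gt_atTop 0)] with n hdense t1 t2 hn l1 l2 ω hω ω' s1 s2 s3
  have hn' : (0 : ℝ) < n := by exact_mod_cast hn
  have p0 : 0 < p n := (mul_pos_iff_of_pos_right hn').1 l2
  have m0 : 0 < p n * (n : ℝ) ^ 2 := by positivity
  obtain ⟨T, u1, u2, u3, u4⟩ := hf n ω' s2
  have N1 := mul_le_mul_of_nonneg_left (card_pairs_le hn) (q0 n)
  have v1 : (T.card : ℝ) ≤ ζ ^ 4 / 256 * (p n * (n : ℝ) ^ 2) := by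
    refine le_of_mul_le_mul_left (u3.trans ?_) d0
    have a1 := mul_le_mul_of_nonneg_right c3 (mul_nonneg (q0 n) (sq_nonneg (n : ℝ)))
    have a2 : c * (d * (ζ ^ 4 / 256)) * (p n / c * (n : ℝ) ^ 2) =
        d * (ζ ^ 4 / 256 * (p n * (n : ℝ) ^ 2)) := by field_simp
    linarith only [N1, a1, a2]
  have v2 := (R.sys n).few K1 (q := p n / c) (β := β) (by positivity) ((q1 n).trans (R.p1 n))
    (fun A hA U hU w1 w2 => le_trans (mul_le_mul_of_nonneg_left
      (pow_le_pow_left₀ (q0 n) (q1 n) _) (by positivity)) ((t1.2 A hA U hU w1 w2).trans t2))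
    (by rw [Fintype.card_fin, div_pow, ← mul_div_assoc, one_le_div cp]; exact l1) (f n T)
    (le_trans (Real.exp_le_exp.2 (by
      have a1 : β / (12 * (4 ^ k * kz W)) = 2 * d := by rw [hd]; field_simp; ring
      have a2 := mul_le_mul_of_nonneg_left N1 d0.le
      rw [a1, Fintype.card_fin]
      linarith only [a2])) u4)
  rw [Fintype.card_fin] at v2
  have v3 := mul_le_mul_of_nonneg_left (hg n _ (hdense _ v2)) p0.le
  have v4 := hω T (u1.trans s1) v1
  have v5 := mul_nonneg p0.le (Nat.cast_nonneg (α := ℝ) ((f n T).filter (Ins (g n (f n T)))).card)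
  have cv : ∀ (Q : Sym2 (Fin n) → Prop) [DecidablePred Q], ((ω'.filter Q).card : ℝ) ≤
      T.card + (ω ∩ ((f n T).filter Q \ T)).card := fun Q _ => by
    rw [← Nat.cast_add, Nat.cast_le]
    refine le_trans (Finset.card_le_card fun e he => ?_) (Finset.card_union_le _ _)
    obtain ⟨a1, a2⟩ := Finset.mem_filter.1 he
    refine Finset.mem_union.2 (or_iff_not_imp_left.2 fun a3 => Finset.mem_inter.2 ⟨s1 a1,
      Finset.mem_sdiff.2 ⟨Finset.mem_filter.2 ⟨(Finset.mem_union.1 (u2 a1)).resolve_left a3, a2⟩,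
        a3⟩⟩)
  have v6 := cv fun e => ¬ e.IsDiag
  have v8 := Finset.card_nsmul_le_sum univ _ _ fun v _ => s3 v
  rw [handshake_card, Finset.card_univ, Fintype.card_fin, nsmul_eq_mul] at v8
  exfalso
  have v9 := mul_le_mul_of_nonneg_right (z3.trans z2) m0.le
  have v10 := mul_le_mul_of_nonneg_right z2 m0.le
  linarith only [v1, v3, v4, v5, v6, v8, v9, v10]

theorem lo_tur2 (B : HBal H) {r : ℕ} (hr : 2 ≤ r) (hr1 : H.Colorable r) :
    ∃ Λ0 : ℝ, ∀ (p : ℕ → unitInterval) (μ Λ : ℝ), GReg H (fun n => p n) μ Λ → Λ0 ≤ Λ →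
      turanThreshold H p ≤ 1 - 1 / (r : ℝ) := by
  obtain ⟨s, rfl⟩ : ∃ s, r = s + 1 := ⟨r - 1, by omega⟩
  have s1 : (1 : ℝ) ≤ s := by exact_mod_cast (by omega : 1 ≤ s)
  have e0 : 1 / ((s + 1 : ℕ) : ℝ) < 1 / s :=
    one_div_lt_one_div_of_lt (by linarith only [s1]) (by push_cast; linarith only [])
  obtain ⟨Λ0, h⟩ := lo_tur B (by omega) hr1 (sub_pos.2 e0)
  refine ⟨Λ0, fun p μ Λ R hΛ => ?_⟩
  have h1 := h _ μ Λ R hΛ
  rw [sub_add_sub_cancel] at h1
  rw [turan_eq]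
  exact csInf_le ⟨0, fun _ h => h.1.le⟩
    ⟨sub_pos.2 (e0.trans_le (div_le_self zero_le_one s1)), h1⟩

end Pool.Agent.Work.MP_d4a230_co
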